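import Mathlib

/-!
# Project AB: Fourier inversion over a finite commutative group and the end of the proof

`G` is a finite commutative group (`(ℤ/f)ˣ` or a quotient of it), `c : G` (complex conjugation),
`Ω` a field with enough roots of unity.
* `fourier`: a function `g : G → Ω` with `∑_w χ(w) g(w) = 0` for all `χ : G →* Ωˣ` is zero.
* `Twist π T c χ`: `∑_{T v = τ} χ(π v) = χ(c) ∑_{T v = τ⁻¹} χ(π v)` for all `τ`.
* `perm_of_twist` (characteristic zero): if this holds for all `χ`, there is a permutation `σ` of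
  the index set with `π (σ v) = c π v`, `T (σ v) T v = 1`.
* `inv_of_twist` (any characteristic with `|G| ≠ 0`, `π = id`): `T (c w) T w = 1`.
* `six_of_two`: `T' T = 1` and `(1 - T') (1 - T) = 1` give `T² - T + 1 = 0`.
-/

namespace H85AB

open Finset

section fourier

variable {G : Type*} [CommGroup G] [Fintype G] {Ω : Type*} [Field Ω]

/-- the sum of `χ(a)` over all characters vanishes for `a ≠ 1` -/
lemma sum_char [HasEnoughRootsOfUnity Ω (Monoid.exponent G)] [Fintype (G →* Ωˣ)] {a : G}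
    (ha : a ≠ 1) : ∑ χ : G →* Ωˣ, ((χ a : Ωˣ) : Ω) = 0 := by
  obtain ⟨ψ, hψ⟩ := CommGroup.exists_apply_ne_one_of_hasEnoughRootsOfUnity G Ω ha
  have h : ∑ χ : G →* Ωˣ, ((χ a : Ωˣ) : Ω) = (ψ a : Ω) * ∑ χ : G →* Ωˣ, ((χ a : Ωˣ) : Ω) := by
    rw [mul_sum, ← Equiv.sum_comp (Equiv.mulLeft ψ) (fun χ : G →* Ωˣ => ((χ a : Ωˣ) : Ω))]
    refine sum_congr rfl fun χ _ => ?_
    simp
  have h2 : ((ψ a : Ω) - 1) * ∑ χ : G →* Ωˣ, ((χ a : Ωˣ) : Ω) = 0 := by
    linear_combination -h
  rcases mul_eq_zero.mp h2 with h3 | h3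
  · exfalso
    apply hψ
    have : ((ψ a : Ωˣ) : Ω) = 1 := by linear_combination h3
    exact Units.ext (by rw [this, Units.val_one])
  · exact h3

/-- Fourier inversion: characters separate functions. -/
theorem fourier [HasEnoughRootsOfUnity Ω (Monoid.exponent G)] (hG : (Fintype.card G : Ω) ≠ 0)
    (g : G → Ω) (h : ∀ χ : G →* Ωˣ, ∑ w, ((χ w : Ωˣ) : Ω) * g w = 0) (v : G) : g v = 0 := by
  classical
  have : Finite (G →* Ωˣ) := by
    obtain ⟨e⟩ := CommGroup.monoidHom_mulEquiv_of_hasEnoughRootsOfUnity G Ω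
    exact Finite.of_equiv G e.symm.toEquiv
  have : Fintype (G →* Ωˣ) := Fintype.ofFinite _
  have hcard : Fintype.card (G →* Ωˣ) = Fintype.card G := by
    rw [← Nat.card_eq_fintype_card, ← Nat.card_eq_fintype_card]
    exact CommGroup.card_monoidHom_of_hasEnoughRootsOfUnity G Ω
  have h1 : ∑ χ : G →* Ωˣ, ((χ v⁻¹ : Ωˣ) : Ω) * ∑ w, ((χ w : Ωˣ) : Ω) * g w = 0 :=
    sum_eq_zero fun χ _ => by rw [h χ, mul_zero]
  have h2 : ∑ χ : G →* Ωˣ, ((χ v⁻¹ : Ωˣ) : Ω) * ∑ w, ((χ w : Ωˣ) : Ω) * g w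
      = ∑ w, g w * ∑ χ : G →* Ωˣ, ((χ (v⁻¹ * w) : Ωˣ) : Ω) := by
    simp_rw [mul_sum]
    rw [sum_comm]
    refine sum_congr rfl fun w _ => sum_congr rfl fun χ _ => ?_
    rw [map_mul, Units.val_mul]
    ring
  rw [h2, sum_eq_single v] at h1
  · rw [inv_mul_cancel] at h1
    simp only [map_one, Units.val_one, sum_const, card_univ, hcard, nsmul_eq_mul, mul_one] at h1
    rcases mul_eq_zero.mp h1 with h3 | h3
    · exact h3
    · exact absurd h3 hG
  · intro w _ hw
    rw [sum_char (fun h0 => hw ?_), mul_zero]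
    exact (inv_mul_eq_one.mp h0).symm
  · intro hv
    exact absurd (mem_univ v) hv

end fourier

variable {G : Type*} [CommGroup G] [Fintype G] {Ω : Type*} [Field Ω] {α : Type*} [Fintype α]

open Classical in
/-- the twisted symmetry for the character `χ` -/
def Twist (π : α → G) (T : α → Ω) (c : G) (χ : G →* Ωˣ) : Prop :=
  ∀ τ : Ω, ∑ v ∈ univ.filter (fun v => T v = τ), ((χ (π v) : Ωˣ) : Ω)
    = ((χ c : Ωˣ) : Ω) * ∑ v ∈ univ.filter (fun v => T v = τ⁻¹), ((χ (π v) : Ωˣ) : Ω)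

open Classical in
/-- Fourier inversion of the twisted symmetries -/
theorem count_of_twist [HasEnoughRootsOfUnity Ω (Monoid.exponent G)]
    (hG : (Fintype.card G : Ω) ≠ 0) (π : α → G) (T : α → Ω) (c : G)
    (h : ∀ χ : G →* Ωˣ, Twist π T c χ) (w : G) (τ : Ω) :
    ((univ.filter (fun v => T v = τ ∧ π v = w)).card : Ω)
      = ((univ.filter (fun v => T v = τ⁻¹ ∧ c * π v = w)).card : Ω) := by
  have key := fourier hG (fun w : G => ((univ.filter (fun v => T v = τ ∧ π v = w)).card : Ω)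
    - ((univ.filter (fun v => T v = τ⁻¹ ∧ c * π v = w)).card : Ω)) ?_ w
  · exact sub_eq_zero.mp key
  intro χ
  have hχ := h χ τ
  -- fibrewise sums
  have e1 : ∑ w : G, ((χ w : Ωˣ) : Ω) * ((univ.filter (fun v => T v = τ ∧ π v = w)).card : Ω)
      = ∑ v ∈ univ.filter (fun v => T v = τ), ((χ (π v) : Ωˣ) : Ω) := by
    rw [← sum_fiberwise (univ.filter (fun v => T v = τ)) π (fun v => ((χ (π v) : Ωˣ) : Ω))]
    refine sum_congr rfl fun w _ => ?_
    rw [filter_filter, sum_congr rfl (fun v hv => by rw [(mem_filter.mp hv).2.2]), sum_const,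
      nsmul_eq_mul, mul_comm]
  have e2 : ∑ w : G, ((χ w : Ωˣ) : Ω) * ((univ.filter (fun v => T v = τ⁻¹ ∧ c * π v = w)).card : Ω)
      = ∑ v ∈ univ.filter (fun v => T v = τ⁻¹), ((χ (c * π v) : Ωˣ) : Ω) := by
    rw [← sum_fiberwise (univ.filter (fun v => T v = τ⁻¹)) (fun v => c * π v)
      (fun v => ((χ (c * π v) : Ωˣ) : Ω))]
    refine sum_congr rfl fun w _ => ?_
    rw [filter_filter, sum_congr rfl (fun v hv => by rw [(mem_filter.mp hv).2.2]), sum_const,
      nsmul_eq_mul, mul_comm]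
  have e3 : ∑ v ∈ univ.filter (fun v => T v = τ⁻¹), ((χ (c * π v) : Ωˣ) : Ω)
      = ((χ c : Ωˣ) : Ω) * ∑ v ∈ univ.filter (fun v => T v = τ⁻¹), ((χ (π v) : Ωˣ) : Ω) := by
    rw [mul_sum]
    refine sum_congr rfl fun v _ => ?_
    rw [map_mul, Units.val_mul]
  simp_rw [mul_sub]
  rw [sum_sub_distrib, e1, e2, e3, hχ, sub_self]

/-- characteristic zero: the permutation -/
theorem perm_of_twist [CharZero Ω] [HasEnoughRootsOfUnity Ω (Monoid.exponent G)] (π : α → G)
    (T : α → Ω) (c : G) (hT : ∀ v, T v ≠ 0) (h : ∀ χ : G →* Ωˣ, Twist π T c χ) :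
    ∃ σ : Equiv.Perm α, ∀ v, π (σ v) = c * π v ∧ T (σ v) * T v = 1 := by
  classical
  have hG : (Fintype.card G : Ω) ≠ 0 := Nat.cast_ne_zero.mpr Fintype.card_ne_zero
  have hc := count_of_twist hG π T c h
  let f : α → Ω × G := fun v => ((T v)⁻¹, c * π v)
  let g : α → Ω × G := fun v => (T v, π v)
  have hfg : ∀ x : Ω × G, Fintype.card {a // f a = x} = Fintype.card {b // g b = x} := by
    rintro ⟨τ, w⟩
    rw [Fintype.card_subtype, Fintype.card_subtype]
    have h1 := hc w τ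
    have h2 := Nat.cast_injective (R := Ω) h1
    have e1 : (univ.filter (fun v => g v = (τ, w))) = univ.filter (fun v => T v = τ ∧ π v = w) := by
      ext v
      simp [g]
    have e2 : (univ.filter (fun v => f v = (τ, w)))
        = univ.filter (fun v => T v = τ⁻¹ ∧ c * π v = w) := by
      ext v
      simp only [f, mem_filter, mem_univ, true_and, Prod.mk.injEq]
      rw [inv_eq_iff_eq_inv]
    rw [e1, e2, h2]
  let e : ∀ x : Ω × G, {a // f a = x} ≃ {b // g b = x} := fun x =>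
    Fintype.equivOfCardEq (hfg x)
  refine ⟨Equiv.ofFiberEquiv e, fun v => ?_⟩
  have h1 := Equiv.ofFiberEquiv_map e v
  simp only [f, g, Prod.mk.injEq] at h1
  refine ⟨h1.2, ?_⟩
  rw [h1.1]
  exact inv_mul_cancel₀ (hT v)

/-- the case `α = G`, `π = id`: `T (c w) = 1 / T w` -/
theorem inv_of_twist [HasEnoughRootsOfUnity Ω (Monoid.exponent G)] (hG : (Fintype.card G : Ω) ≠ 0)
    (T : G → Ω) (c : G) (hT : ∀ w, T w ≠ 0) (hc2 : c * c = 1)
    (h : ∀ χ : G →* Ωˣ, Twist id T c χ) (w : G) : T (c * w) * T w = 1 := by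
  classical
  have h1 := count_of_twist hG id T c h w (T w)
  have e1 : (univ.filter (fun v => T v = T w ∧ id v = w)) = {w} := by
    ext v
    simp only [id, mem_filter, mem_univ, true_and, mem_singleton]
    exact ⟨fun h => h.2, fun h => ⟨by rw [h], h⟩⟩
  rw [e1, card_singleton, Nat.cast_one] at h1
  by_cases h2 : T (c * w) = (T w)⁻¹
  · rw [h2]
    exact inv_mul_cancel₀ (hT w)
  · exfalso
    have e2 : (univ.filter (fun v => T v = (T w)⁻¹ ∧ c * id v = w)) = ∅ := by
      rw [filter_eq_empty_iff]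
      rintro v - ⟨h3, h4⟩
      apply h2
      rw [← h3, ← h4]
      simp only [id]
      rw [← mul_assoc, hc2, one_mul]
    rw [e2, card_empty, Nat.cast_zero] at h1
    exact one_ne_zero h1

/-- the end: `T' T = 1` and `(1 - T') (1 - T) = 1` -/
theorem six_of_two {x y : Ω} (h1 : y * x = 1) (h2 : (1 - y) * (1 - x) = 1) :
    x ^ 2 - x + 1 = 0 := by
  have hs : x + y = 1 := by linear_combination h1 - h2
  have hy : y = 1 - x := by linear_combination hs
  rw [hy] at h1
  linear_combination -h1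

/-- real case: `x² = 1`, `x ≠ 1` and `x² - x + 1 = 0` are impossible if `3 ≠ 0` -/
theorem no_real {x : Ω} (h3 : (3 : Ω) ≠ 0) (h1 : x * x = 1) (h2 : (1 - x) * (1 - x) = 1) :
    False := by
  have h := six_of_two h1 h2
  have hx : x = 2 := by linear_combination h1 - h
  rw [hx] at h
  apply h3
  linear_combination h

end H85AB
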